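import Mathlib
import Pool.Agent.R168.NewtonDefs
import Pool.Agent.R168.Pyr

set_option autoImplicit false

/-!
# The Newton covering number of a cube pyramid depends on its height, in every dimension

Idea. A copy of `P = P^d(h)` shifted a little downwards covers a neighbourhood of every point of `P`
outside the base, so `N*(P) = 2` as soon as the base `C^(d-1)` fits by an isometry into the interior
of `P`. This is possible for tall pyramids, because `C^(d-2)` fits into the interior of `C^(d-1)`.
At the height `√(3(d-1))/2` the apex and the two ends of a main diagonal of the base are three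
points at distance `diam P` from each other, so three copies are necessary.
-/

namespace Pool.Agent.Results.MP_90eaab_co.HeightMatters

open Pool.Agent.R168.Newton

/-- In every dimension `d = k + 1 ≥ 2`: all sufficiently tall pyramids `P^d(h)` have Newton covering
number `2`, the pyramid of height `√(3(d-1))/2` has Newton covering number at least `3`; so
`N*(P^d(h))` is not the same for all `h > 0`. -/
theorem result (k : ℕ) (hk : 1 ≤ k) :
    (∃ h0 : ℝ, 0 < h0 ∧ ∀ h : ℝ, h0 ≤ h → newton (pyramid k h) = 2) ∧
    3 ≤ newton (pyramid k (√(3 * k) / 2)) ∧
    (∃ h h' : ℝ, 0 < h ∧ 0 < h' ∧ newton (pyramid k h) ≠ newton (pyramid k h')) := by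
  obtain ⟨h0, hh0, htall⟩ := newton_tall hk
  have h3 := three_le_newton hk
  refine ⟨⟨h0, hh0, htall⟩, h3, h0, √(3 * k) / 2, hh0, ?_, ?_⟩
  · have : (0 : ℝ) < k := by exact_mod_cast hk
    positivity
  · rw [htall h0 le_rfl]
    omega

end Pool.Agent.Results.MP_90eaab_co.HeightMatters
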